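import Pool.Agent.Helper62K9.SQ.St

set_option autoImplicit false

namespace Pool.Agent.Helper62K9.SQ

open Finset Pool.Agent.Helper62K9.DV

variable {X ι : Type}

/-- certificates with holes -/
inductive HCert [DecidableEq X] [DecidableEq ι] (D : Circuit X ι) (x : X → Bool) :
    ι → Finset ι → Finset X → Prop
  | hole (v : ι) : HCert D x v {v} ∅
  | leaf (v : ι) (S : Finset X) (f : (X → Bool) → Prop) :
      D.gate v = .leaf S f → f x → HCert D x v ∅ S
  | disj (v : ι) (A : Finset ι) (a : ι) (U : Finset ι) (L : Finset X) :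
      D.gate v = .disj A → a ∈ A → HCert D x a U L → HCert D x v U L
  | conj (v a b : ι) (Ua Ub : Finset ι) (La Lb : Finset X) :
      D.gate v = .conj a b → HCert D x a Ua La → HCert D x b Ub Lb →
      HCert D x v (Ua ∪ Ub) (La ∪ Lb)

section

variable [DecidableEq X] [DecidableEq ι] {D : Circuit X ι} {x : X → Bool} {v : ι} {U : Finset ι}
  {L : Finset X}

theorem HCert.sound (h : HCert D x v U L) {y : X → Bool} (hU : ∀ u ∈ U, D.True y u)
    (hL : ∀ e ∈ L, y e = x e) : D.True y v := by
  induction h with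
  | hole v => exact hU v (mem_singleton_self v)
  | leaf v S f hv hf =>
    exact .leaf v S f hv (D.local_leaf v S f hv x y (fun e he => (hL e he).symm) hf)
  | disj v A a U L hv ha _ ih => exact .disj v A a hv ha (ih hU hL)
  | conj v a b Ua Ub La Lb hv _ _ iha ihb =>
    exact .conj v a b hv
      (iha (fun u hu => hU u (mem_union_left _ hu)) fun e he => hL e (mem_union_left _ he))
      (ihb (fun u hu => hU u (mem_union_right _ hu)) fun e he => hL e (mem_union_right _ he))

theorem HCert.reads_leaf (h : HCert D x v U L) : ∀ e ∈ L, D.Reads v e := by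
  induction h with
  | hole v => simp
  | leaf v S f hv hf => exact fun e he => .leaf v S f e hv he
  | disj v A a U L hv ha _ ih => exact fun e he => .disj v A a e hv ha (ih e he)
  | conj v a b Ua Ub La Lb hv _ _ iha ihb =>
    intro e he
    rcases mem_union.1 he with he | he
    · exact .left v a b e hv (iha e he)
    · exact .right v a b e hv (ihb e he)

theorem HCert.reads_hole (h : HCert D x v U L) : ∀ u ∈ U, ∀ e, D.Reads u e → D.Reads v e := by
  induction h with
  | hole v =>
    intro u hu e he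
    rw [mem_singleton] at hu
    exact hu ▸ he
  | leaf v S f hv hf => simp
  | disj v A a U L hv ha _ ih => exact fun u hu e he => .disj v A a e hv ha (ih u hu e he)
  | conj v a b Ua Ub La Lb hv _ _ iha ihb =>
    intro u hu e he
    rcases mem_union.1 hu with hu | hu
    · exact .left v a b e hv (iha u hu e he)
    · exact .right v a b e hv (ihb u hu e he)

theorem HCert.disjoint (h : HCert D x v U L) (hD : D.Decomposable) :
    ∀ u ∈ U, ∀ e ∈ L, ¬ D.Reads u e := by
  induction h with
  | hole v => simp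
  | leaf v S f hv hf => simp
  | disj v A a U L hv ha _ ih => exact ih
  | conj v a b Ua Ub La Lb hv ha hb iha ihb =>
    intro u hu e he hr
    rcases mem_union.1 hu with hu | hu
    · rcases mem_union.1 he with he | he
      · exact iha u hu e he hr
      · exact hD v a b hv e (ha.reads_hole u hu e hr) (hb.reads_leaf e he)
    · rcases mem_union.1 he with he | he
      · exact hD v a b hv e (ha.reads_leaf e he) (hb.reads_hole u hu e hr)
      · exact ihb u hu e he hr

/-- the older chunk `c'` and the chunk `c` are separated -/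
def Sep (D : Circuit X ι) (c c' : ι × Finset ι × Finset X) : Prop :=
  (∃ u ∈ c.2.1, ∀ e, D.Reads c'.1 e → D.Reads u e) ∨ (∀ e, D.Reads c'.1 e → ¬ D.Reads c.1 e)

/-- a list of chunks, the newest first -/
def Ok (D : Circuit X ι) (x : X → Bool) : List (ι × Finset ι × Finset X) → Prop
  | [] => True
  | c :: C => HCert D x c.1 c.2.1 c.2.2 ∧ (∀ u ∈ c.2.1, ∃ c' ∈ C, c'.1 = u) ∧
      (∀ c' ∈ C, Sep D c c') ∧ Ok D x C

theorem Ok.append {C C' : List (ι × Finset ι × Finset X)} (h : Ok D x C) (h' : Ok D x C')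
    (hs : ∀ c ∈ C, ∀ c' ∈ C', Sep D c c') : Ok D x (C ++ C') := by
  induction C with
  | nil => exact h'
  | cons c C ih =>
    obtain ⟨h1, h2, h3, h4⟩ := h
    refine ⟨h1, ?_, ?_, ih h4 fun c hc => hs c (List.mem_cons_of_mem _ hc)⟩
    · intro u hu
      obtain ⟨c', hc', he⟩ := h2 u hu
      exact ⟨c', List.mem_append_left _ hc', he⟩
    · intro c' hc'
      rcases List.mem_append.1 hc' with hc' | hc'
      · exact h3 c' hc'
      · exact hs c List.mem_cons_self c' hc'

theorem Ok.cert {C : List (ι × Finset ι × Finset X)} (h : Ok D x C) :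
    ∀ c ∈ C, HCert D x c.1 c.2.1 c.2.2 := by
  induction C with
  | nil => simp
  | cons c C ih =>
    intro c' hc'
    rcases List.mem_cons.1 hc' with rfl | hc'
    · exact h.1
    · exact ih h.2.2.2 c' hc'

theorem Ok.pairwise {C : List (ι × Finset ι × Finset X)} (h : Ok D x C) :
    C.Pairwise (Sep D) := by
  induction C with
  | nil => exact .nil
  | cons c C ih => exact .cons h.2.2.1 (ih h.2.2.2)

theorem sep_disjoint (hD : D.Decomposable) {c c' : ι × Finset ι × Finset X} {x' : X → Bool}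
    {L L' : Finset X} (hs : Sep D c c') (h : HCert D x c.1 c.2.1 L)
    (h' : HCert D x' c'.1 c'.2.1 L') : Disjoint L L' := by
  rw [Finset.disjoint_left]
  intro e he he'
  rcases hs with ⟨u, hu, hr⟩ | hr
  · exact h.disjoint hD u hu e he (hr e (h'.reads_leaf e he'))
  · exact hr e (h'.reads_leaf e he') (h.reads_leaf e he)

theorem Ok.card (hD : D.Decomposable) {C : List (ι × Finset ι × Finset X)} (h : Ok D x C) :
    ∃ Y : Finset X, Y.card = (C.map fun c => c.2.2.card).sum ∧ ∀ e ∈ Y, ∃ c ∈ C, e ∈ c.2.2 := by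
  induction C with
  | nil => exact ⟨∅, by simp, by simp⟩
  | cons c C ih =>
    obtain ⟨Y, hY, hY'⟩ := ih h.2.2.2
    refine ⟨c.2.2 ∪ Y, ?_, ?_⟩
    · rw [card_union_of_disjoint, hY, List.map_cons, List.sum_cons]
      rw [Finset.disjoint_left]
      intro e he he'
      obtain ⟨c', hc', hec'⟩ := hY' e he'
      exact (Finset.disjoint_left.1 (sep_disjoint hD (h.2.2.1 c' hc') h.1
        (h.2.2.2.cert c' hc'))) he hec'
    · intro e he
      rcases mem_union.1 he with he | he
      · exact ⟨c, List.mem_cons_self, he⟩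
      · obtain ⟨c', hc', hec'⟩ := hY' e he
        exact ⟨c', List.mem_cons_of_mem _ hc', hec'⟩

/-- acceptance of mixed inputs -/
theorem Ok.mix {C : List (ι × Finset ι × Finset X)} (h : Ok D x C) (y : X → Bool)
    (hy : ∀ c ∈ C, ∃ (x' : X → Bool) (L' : Finset X), HCert D x' c.1 c.2.1 L' ∧
      ∀ e ∈ L', y e = x' e) : ∀ c ∈ C, D.True y c.1 := by
  induction C with
  | nil => simp
  | cons c C ih =>
    have hC := ih h.2.2.2 fun c hc => hy c (List.mem_cons_of_mem _ hc)
    intro c' hc'
    rcases List.mem_cons.1 hc' with rfl | hc'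
    · obtain ⟨x', L', h1, h2⟩ := hy c' List.mem_cons_self
      refine h1.sound ?_ h2
      intro u hu
      obtain ⟨c'', hc'', rfl⟩ := h.2.1 u hu
      exact hC c'' hc''
    · exact hC c' hc'

/-- the decomposition of an accepted input into chunks -/
theorem exists_chunks {t : ℕ} (hD : D.Decomposable) (hl : D.LeafSize t) (h : D.True x v) :
    ∃ (C : List (ι × Finset ι × Finset X)) (U : Finset ι) (L : Finset X),
      HCert D x v U L ∧ L.card ≤ t ∧ Ok D x C ∧ (∀ c ∈ C, t < c.2.2.card ∧ c.2.2.card ≤ 2 * t) ∧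
      (∀ u ∈ U, ∃ c' ∈ C, c'.1 = u) ∧
      (∀ c' ∈ C, ∃ u ∈ U, ∀ e, D.Reads c'.1 e → D.Reads u e) ∧
      (C.map fun c => c.2.1.card).sum + U.card ≤ C.length := by
  induction h with
  | leaf v S f hv hf =>
    exact ⟨[], ∅, S, .leaf v S f hv hf, hl v S f hv, trivial, by simp, by simp, by simp, by simp⟩
  | disj v A a hv ha _ ih =>
    obtain ⟨C, U, L, h1, h2, h3, h4, h5, h6, h7⟩ := ih
    exact ⟨C, U, L, .disj v A a U L hv ha h1, h2, h3, h4, h5, h6, h7⟩
  | conj v a b hv _ _ iha ihb =>
    obtain ⟨Ca, Ua, La, a1, a2, a3, a4, a5, a6, a7⟩ := iha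
    obtain ⟨Cb, Ub, Lb, b1, b2, b3, b4, b5, b6, b7⟩ := ihb
    have hra : ∀ c ∈ Ca, ∀ e, D.Reads c.1 e → D.Reads a e := by
      intro c hc e he
      obtain ⟨u, hu, hr⟩ := a6 c hc
      exact a1.reads_hole u hu e (hr e he)
    have hrb : ∀ c ∈ Cb, ∀ e, D.Reads c.1 e → D.Reads b e := by
      intro c hc e he
      obtain ⟨u, hu, hr⟩ := b6 c hc
      exact b1.reads_hole u hu e (hr e he)
    have hok : Ok D x (Cb ++ Ca) := b3.append a3 fun c hc c' hc' =>
      Or.inr fun e he he' => hD v a b hv e (hra c' hc' e he) (hrb c hc e he')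
    have hcert : HCert D x v (Ua ∪ Ub) (La ∪ Lb) := .conj v a b Ua Ub La Lb hv a1 b1
    have hex : ∀ u ∈ Ua ∪ Ub, ∃ c' ∈ Cb ++ Ca, c'.1 = u := by
      intro u hu
      rcases mem_union.1 hu with hu | hu
      · obtain ⟨c', hc', he⟩ := a5 u hu
        exact ⟨c', List.mem_append_right _ hc', he⟩
      · obtain ⟨c', hc', he⟩ := b5 u hu
        exact ⟨c', List.mem_append_left _ hc', he⟩
    have hex' : ∀ c' ∈ Cb ++ Ca, ∃ u ∈ Ua ∪ Ub, ∀ e, D.Reads c'.1 e → D.Reads u e := by
      intro c' hc'
      rcases List.mem_append.1 hc' with hc' | hc'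
      · obtain ⟨u, hu, hr⟩ := b6 c' hc'
        exact ⟨u, mem_union_right _ hu, hr⟩
      · obtain ⟨u, hu, hr⟩ := a6 c' hc'
        exact ⟨u, mem_union_left _ hu, hr⟩
    have hsz : ∀ c ∈ Cb ++ Ca, t < c.2.2.card ∧ c.2.2.card ≤ 2 * t := by
      intro c hc
      rcases List.mem_append.1 hc with hc | hc
      · exact b4 c hc
      · exact a4 c hc
    have hsum : ((Cb ++ Ca).map fun c => c.2.1.card).sum + (Ua ∪ Ub).card ≤
        (Cb ++ Ca).length := by
      rw [List.map_append, List.sum_append, List.length_append]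
      have := card_union_le Ua Ub
      omega
    have hLL := card_union_le La Lb
    by_cases hle : (La ∪ Lb).card ≤ t
    · exact ⟨Cb ++ Ca, Ua ∪ Ub, La ∪ Lb, hcert, hle, hok, hsz, hex, hex', hsum⟩
    · refine ⟨(v, Ua ∪ Ub, La ∪ Lb) :: (Cb ++ Ca), {v}, ∅, .hole v, by simp, ⟨hcert, hex,
        fun c' hc' => Or.inl (hex' c' hc'), hok⟩, ?_, ?_, ?_, ?_⟩
      · intro c hc
        rcases List.mem_cons.1 hc with rfl | hc
        · simp only
          omega
        · exact hsz c hc
      · intro u hu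
        rw [mem_singleton] at hu
        exact ⟨_, List.mem_cons_self, hu.symm⟩
      · intro c' hc'
        refine ⟨v, mem_singleton_self v, ?_⟩
        rcases List.mem_cons.1 hc' with rfl | hc'
        · exact fun e he => he
        · obtain ⟨u, hu, hr⟩ := hex' c' hc'
          exact fun e he => hcert.reads_hole u hu e (hr e he)
      · rw [List.map_cons, List.sum_cons, List.length_cons, card_singleton]
        simp only
        omega

end

open Classical in
/-- popular types of chunks -/
theorem exists_popular {ι T : Type} [Fintype ι] [Nonempty ι] (𝓕 : Finset T)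
    (hne : 𝓕.Nonempty) (F : ι × Finset ι → Finset T)
    (Ty : T → Finset (ι × Finset ι)) (hT : ∀ σ ∈ 𝓕, ∀ p ∈ Ty σ, σ ∈ F p) :
    ∃ σ ∈ 𝓕, ∀ p ∈ Ty σ, 𝓕.card ≤ (4 * Fintype.card ι) ^ (p.2.card + 1) * (F p).card := by
  by_contra hcon
  push Not at hcon
  set s : ℝ := (Fintype.card ι : ℝ) with hs
  have hs1 : 1 ≤ s := by
    have : 0 < Fintype.card ι := Fintype.card_pos
    rw [hs]
    exact_mod_cast this
  set z : ℝ := 1 / (4 * s) with hz
  have hz0 : 0 < z := by positivity
  set bad : Finset (ι × Finset ι) := univ.filter fun p =>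
    (4 * Fintype.card ι) ^ (p.2.card + 1) * (F p).card < 𝓕.card with hbad
  have hsub : 𝓕 ⊆ bad.biUnion F := by
    intro σ hσ
    obtain ⟨p, hp, hlt⟩ := hcon σ hσ
    rw [mem_biUnion]
    exact ⟨p, mem_filter.2 ⟨mem_univ _, hlt⟩, hT σ hσ p hp⟩
  have h1 : (𝓕.card : ℝ) ≤ ∑ p ∈ bad, ((F p).card : ℝ) := by
    exact_mod_cast (card_le_card hsub).trans card_biUnion_le
  have h2 : ∀ p ∈ bad, ((F p).card : ℝ) ≤ 𝓕.card * z ^ (p.2.card + 1) := by
    intro p hp
    have h3 : ((4 * Fintype.card ι) ^ (p.2.card + 1) * (F p).card : ℝ) < 𝓕.card := by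
      exact_mod_cast (mem_filter.1 hp).2
    have h4 : (0 : ℝ) < (4 * s) ^ (p.2.card + 1) := by positivity
    rw [hz, one_div, inv_pow, ← div_eq_mul_inv, le_div_iff₀ h4]
    rw [← hs] at h3
    linarith [mul_comm ((F p).card : ℝ) ((4 * s) ^ (p.2.card + 1))]
  have h3 : ∑ p : ι × Finset ι, z ^ (p.2.card + 1) = (1 / 4) * (1 + z) ^ (Fintype.card ι) := by
    have e1 : ∑ p : ι × Finset ι, z ^ (p.2.card + 1) = ∑ _w : ι, ∑ U : Finset ι, z ^ (U.card + 1) :=
      Fintype.sum_prod_type _
    have e2 : ∑ U : Finset ι, z ^ (U.card + 1) = z * (z + 1) ^ (Fintype.card ι) := by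
      rw [← Fintype.sum_pow_mul_eq_add_pow, mul_sum]
      refine sum_congr rfl fun U _ => ?_
      rw [one_pow, mul_one, pow_succ, mul_comm]
    rw [e1, e2, sum_const, card_univ, nsmul_eq_mul, ← hs, ← mul_assoc, add_comm z 1]
    congr 1
    rw [hz]
    field_simp
  have h4 : (1 + z) ^ (Fintype.card ι) ≤ Real.exp (1 / 4) := by
    have e1 : 1 + z ≤ Real.exp z := by
      have := Real.add_one_le_exp z
      linarith
    calc (1 + z) ^ (Fintype.card ι) ≤ (Real.exp z) ^ (Fintype.card ι) :=
          pow_le_pow_left₀ (by positivity) e1 _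
      _ = Real.exp (s * z) := by rw [← Real.exp_nat_mul]
      _ = Real.exp (1 / 4) := by
          congr 1
          rw [hz]
          field_simp
  have h5 : Real.exp (1 / 4) < 4 := by
    have e1 : Real.exp (1 / 4) ≤ Real.exp 1 := Real.exp_le_exp.2 (by norm_num)
    have e2 := Real.exp_one_lt_d9
    linarith
  have hpos : (0 : ℝ) < 𝓕.card := by
    exact_mod_cast card_pos.2 hne
  have h6 : (𝓕.card : ℝ) < 𝓕.card := by
    calc (𝓕.card : ℝ) ≤ ∑ p ∈ bad, ((F p).card : ℝ) := h1
      _ ≤ ∑ p ∈ bad, 𝓕.card * z ^ (p.2.card + 1) := sum_le_sum h2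
      _ ≤ ∑ p : ι × Finset ι, 𝓕.card * z ^ (p.2.card + 1) :=
          sum_le_sum_of_subset_of_nonneg (subset_univ _) fun _ _ _ => by positivity
      _ = 𝓕.card * ((1 / 4) * (1 + z) ^ (Fintype.card ι)) := by rw [← mul_sum, h3]
      _ < 𝓕.card * 1 := by
          apply mul_lt_mul_of_pos_left _ hpos
          linarith
      _ = 𝓕.card := mul_one _
  exact lt_irrefl _ h6

theorem sk : S_SK := by
  classical
  intro X ι T _ _ _ t x D hD hl 𝓕 hne hacc
  have : Nonempty ι := ⟨D.out⟩
  have key : ∀ σ : T, ∃ C : List (ι × Finset ι × Finset X), σ ∈ 𝓕 →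
      Ok D (x σ) C ∧ (∃ c ∈ C, c.1 = D.out) ∧ (∀ c ∈ C, c.2.2.card ≤ 2 * t) ∧
      (C.map fun c => c.2.1.card).sum ≤ C.length ∧
      C.length * (t + 1) ≤ Fintype.card X + (t + 1) := by
    intro σ
    by_cases hσ : σ ∈ 𝓕
    · obtain ⟨C, U, L, h1, h2, h3, h4, h5, h6, h7⟩ := exists_chunks hD hl (hacc σ hσ)
      refine ⟨(D.out, U, L) :: C, fun _ => ⟨⟨h1, h5, fun c' hc' => Or.inl (h6 c' hc'), h3⟩,
        ⟨_, List.mem_cons_self, rfl⟩, ?_, ?_, ?_⟩⟩
      · intro c hc
        rcases List.mem_cons.1 hc with rfl | hc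
        · simp only
          omega
        · exact (h4 c hc).2
      · rw [List.map_cons, List.sum_cons, List.length_cons]
        simp only
        omega
      · obtain ⟨Y, hY, -⟩ := h3.card hD
        have h8 : C.length * (t + 1) ≤ (C.map fun c => c.2.2.card).sum := by
          clear h3 h5 h6 h7 hY
          induction C with
          | nil => simp
          | cons c C ih =>
            rw [List.map_cons, List.sum_cons, List.length_cons]
            have e1 := ih fun c hc => h4 c (List.mem_cons_of_mem _ hc)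
            have e2 := (h4 c List.mem_cons_self).1
            have e3 : (C.length + 1) * (t + 1) = C.length * (t + 1) + (t + 1) := by ring
            omega
        have h9 : Y.card ≤ Fintype.card X := card_le_univ Y
        rw [List.length_cons]
        have e3 : (C.length + 1) * (t + 1) = C.length * (t + 1) + (t + 1) := by ring
        omega
    · exact ⟨[], fun h => absurd h hσ⟩
  choose C hC using key
  set cls : ι × Finset ι → Finset T := fun p =>
    𝓕.filter fun τ => ∃ L : Finset X, HCert D (x τ) p.1 p.2 L ∧ L.card ≤ 2 * t with hcls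
  obtain ⟨σ, hσ, hpop⟩ := exists_popular 𝓕 hne cls
    (fun σ => ((C σ).map fun c => (c.1, c.2.1)).toFinset) (by
      intro σ hσ p hp
      rw [List.mem_toFinset, List.mem_map] at hp
      obtain ⟨c, hc, rfl⟩ := hp
      obtain ⟨h1, -, h3, -, -⟩ := hC σ hσ
      exact mem_filter.2 ⟨hσ, c.2.2, h1.cert c hc, h3 c hc⟩)
  obtain ⟨hok, ⟨c₀, hc₀, hout⟩, hsz, hsum, hlen⟩ := hC σ hσ
  set Cs := C σ with hCs
  have hP : ∀ (p : ι × Finset ι) (τ : T), ∃ L : Finset X, τ ∈ cls p →
      HCert D (x τ) p.1 p.2 L ∧ L.card ≤ 2 * t := by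
    intro p τ
    by_cases hτ : τ ∈ cls p
    · obtain ⟨L, hL⟩ := (mem_filter.1 hτ).2
      exact ⟨L, fun _ => hL⟩
    · exact ⟨∅, fun h => absurd h hτ⟩
  choose P hP using hP
  set ty : ι × Finset ι × Finset X → ι × Finset ι := fun c => (c.1, c.2.1) with hty
  refine ⟨Cs.length, fun i => cls (ty (Cs.get i)), fun i => P (ty (Cs.get i)), hlen, ?_, ?_, ?_, ?_⟩
  · intro i τ hτ
    exact (hP _ τ hτ).2
  · have hpw := List.pairwise_iff_get.1 hok.pairwise
    intro i j hij τ hτ τ' hτ'
    rcases lt_or_gt_of_ne hij with h | h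
    · exact sep_disjoint hD (hpw i j h) (hP _ τ hτ).1 (hP _ τ' hτ').1
    · exact (sep_disjoint hD (hpw j i h) (hP _ τ' hτ').1 (hP _ τ hτ).1).symm
  · intro y c hc hy
    have := hok.mix y (by
      intro c' hc'
      obtain ⟨i, hi⟩ := List.get_of_mem hc'
      refine ⟨x (c i), P (ty (Cs.get i)) (c i), ?_, hy i⟩
      have := (hP _ (c i) (hc i)).1
      rw [hi] at this ⊢
      exact this) c₀ hc₀
    rw [hout] at this
    exact this
  · have h1 : ∀ i : Fin Cs.length, 𝓕.card ≤
        (4 * Fintype.card ι) ^ ((Cs.get i).2.1.card + 1) * (cls (ty (Cs.get i))).card := by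
      intro i
      refine hpop (ty (Cs.get i)) ?_
      rw [List.mem_toFinset, List.mem_map]
      exact ⟨Cs.get i, List.get_mem _ _, rfl⟩
    have hpos : 1 ≤ 4 * Fintype.card ι := by
      have : 0 < Fintype.card ι := Fintype.card_pos
      omega
    calc 𝓕.card ^ Cs.length = ∏ _i : Fin Cs.length, 𝓕.card := by
          rw [prod_const, card_univ, Fintype.card_fin]
      _ ≤ ∏ i : Fin Cs.length, ((4 * Fintype.card ι) ^ ((Cs.get i).2.1.card + 1) *
            (cls (ty (Cs.get i))).card) := prod_le_prod' fun i _ => h1 i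
      _ = (4 * Fintype.card ι) ^ (∑ i : Fin Cs.length, ((Cs.get i).2.1.card + 1)) *
            ∏ i : Fin Cs.length, (cls (ty (Cs.get i))).card := by
          rw [prod_mul_distrib, prod_pow_eq_pow_sum]
      _ ≤ _ := by
          refine Nat.mul_le_mul_right _ (Nat.pow_le_pow_right hpos ?_)
          rw [sum_add_distrib, sum_const, card_univ, Fintype.card_fin, smul_eq_mul, mul_one]
          have e1 : ∑ i : Fin Cs.length, (Cs.get i).2.1.card =
              (Cs.map fun c => c.2.1.card).sum := by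
            have := Fin.sum_univ_fun_getElem Cs fun c => c.2.1.card
            simpa using this
          omega

end Pool.Agent.Helper62K9.SQ
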