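import Pool.Agent.Helper62K9.SQ.St

set_option autoImplicit false

namespace Pool.Agent.Helper62K9.SQ

open Finset Pool.Agent.Helper62K9.DV

theorem touch_vc {n m b : ℕ} (f : Fin m × Fin b ↪ Fin n) (σ : Fin m → Fin b) :
    vc (touch (pick f σ)) ≤ m := by
  refine (vc_le _ (pick f σ) ?_).trans ?_
  · intro u v huv
    exact huv.2
  · refine card_image_le.trans ?_
    simp

/-- the numerical part -/
theorem numbersS {n c : ℕ} (hc : 1 ≤ c) (hbig : (c : ℝ) ^ 2 * 10 ^ 6 < n) :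
    ∃ m r t : ℕ, m = n / (2 * c) ∧ 0 < r ∧ 4 * t ≤ r ^ 2 ∧ 8 * c * r + 1 ≤ c * m ∧
      1 + (1 / 10 ^ 6 : ℝ) * (n : ℝ) ^ 2 / (c : ℝ) ^ 2 ≤ t ∧ (n : ℝ) / 2 ≤ 2 * c * m ∧
      (n : ℝ) ^ 2 / (16384 * (c : ℝ) ^ 2) ≤ (t : ℝ) + 1 := by
  have hc1 : (1 : ℝ) ≤ c := by exact_mod_cast hc
  have hc0 : (0 : ℝ) < c := by linarith
  obtain ⟨m, hm⟩ : ∃ m, m = n / (2 * c) := ⟨_, rfl⟩
  have h2c : 0 < 2 * c := by omega
  have hm1 : n < 2 * c * (m + 1) := by
    rw [hm]
    exact Nat.lt_mul_div_succ n h2c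
  have hm2 : (n : ℝ) < 2 * c * (m + 1) := by exact_mod_cast hm1
  have hcc : (c : ℝ) ≤ c ^ 2 := by nlinarith
  have hn0 : (10 : ℝ) ^ 6 * c < n := by nlinarith
  have hmbig : (400000 : ℝ) < m := by
    by_contra hcon
    push Not at hcon
    have : 2 * (c : ℝ) * (m + 1) ≤ 2 * c * 400001 := by
      apply mul_le_mul_of_nonneg_left _ (by positivity)
      linarith
    linarith
  have hmc : (n : ℝ) ≤ 4 * c * m := by nlinarith
  have hm' : 400000 < m := by exact_mod_cast hmbig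
  obtain ⟨r, hr⟩ : ∃ r, r = (m - 1) / 8 := ⟨_, rfl⟩
  obtain ⟨t, ht⟩ : ∃ t, t = r ^ 2 / 4 := ⟨_, rfl⟩
  have hr1 : 8 * r ≤ m - 1 := by omega
  have hr2 : m ≤ 16 * r := by omega
  have ht1 : 4 * t ≤ r ^ 2 := by omega
  have ht2 : r ^ 2 < 4 * (t + 1) := by omega
  have ht3 : (r : ℝ) ^ 2 < 4 * (t + 1) := by exact_mod_cast ht2
  have hr3 : (m : ℝ) ≤ 16 * r := by exact_mod_cast hr2
  have hrc : (n : ℝ) ≤ 64 * c * r := by nlinarith
  have ht4 : (n : ℝ) ^ 2 / (16384 * (c : ℝ) ^ 2) ≤ (t : ℝ) + 1 := by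
    rw [div_le_iff₀ (by positivity)]
    have h1 : (n : ℝ) ^ 2 ≤ (64 * c * r) ^ 2 := pow_le_pow_left₀ (by positivity) hrc 2
    have h2 : (64 * (c : ℝ) * r) ^ 2 = 4096 * c ^ 2 * r ^ 2 := by ring
    have h3 : 4096 * (c : ℝ) ^ 2 * r ^ 2 ≤ 4096 * (c : ℝ) ^ 2 * (4 * (t + 1)) :=
      mul_le_mul_of_nonneg_left ht3.le (by positivity)
    nlinarith
  refine ⟨m, r, t, hm, by omega, ht1, ?_, ?_, ?_, ht4⟩
  · have h1 : c * (8 * r) ≤ c * (m - 1) := Nat.mul_le_mul_left c hr1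
    have h2 : c * (m - 1) + c = c * m := by
      have : m = (m - 1) + 1 := by omega
      calc c * (m - 1) + c = c * ((m - 1) + 1) := by ring
        _ = c * m := by rw [← this]
    have h3 : 8 * c * r = c * (8 * r) := by ring
    omega
  · have h1 : (n : ℝ) ^ 2 / (16384 * (c : ℝ) ^ 2) = (1 / 16384) * ((n : ℝ) ^ 2 / (c : ℝ) ^ 2) := by
      field_simp
    have h2 : (1 / 10 ^ 6 : ℝ) * (n : ℝ) ^ 2 / (c : ℝ) ^ 2 =
        (1 / 10 ^ 6) * ((n : ℝ) ^ 2 / (c : ℝ) ^ 2) := by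
      field_simp
    have h3 : (10 ^ 12 : ℝ) ≤ (n : ℝ) ^ 2 / (c : ℝ) ^ 2 := by
      rw [le_div_iff₀ (by positivity)]
      nlinarith
    rw [h2]
    rw [h1] at ht4
    linarith
  · nlinarith

/-- the lower bound -/
theorem lo (ma : S_MA) : S_LO := by
  classical
  refine ⟨1 / 10 ^ 6, by positivity, ?_⟩
  intro n c l R _ p ι _ D hc hp hp1 hD hl hln hsound hcomp
  have hc1 : (1 : ℝ) ≤ c := by exact_mod_cast hc
  have hc0 : (0 : ℝ) < c := by linarith
  have hR : Nonempty R := by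
    by_contra h
    rw [not_nonempty_iff] at h
    simp at hp1
  set E : ℝ := 1 / 10 ^ 6 * (n : ℝ) / (c : ℝ) ^ 2 with hE
  have hcard : ∀ q, (1 : ℝ) ≤ Fintype.card (ι q) := by
    intro q
    have : 0 < Fintype.card (ι q) := Fintype.card_pos_iff.2 ⟨(D q).out⟩
    exact_mod_cast this
  by_cases hn : (c : ℝ) ^ 2 * 10 ^ 6 < n
  swap
  · obtain ⟨q⟩ := hR
    refine ⟨q, ?_⟩
    push Not at hn
    have h2 : E ≤ 1 := by
      rw [hE, div_le_one (by positivity)]
      linarith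
    calc (2 : ℝ) ^ E ≤ 2 ^ (1 : ℝ) := Real.rpow_le_rpow_of_exponent_le (by norm_num) h2
      _ = 2 := Real.rpow_one 2
      _ ≤ _ := by linarith [hcard q]
  · obtain ⟨m, r, t, hm, hr, htr, har, hlt, hnm, hnt⟩ := numbersS hc hn
    have hlt' : l ≤ t := by
      have h2 : (l : ℝ) ≤ t := hln.trans hlt
      exact_mod_cast h2
    have hmn : m * (2 * c) ≤ n := by
      rw [hm]
      exact Nat.div_mul_le_self n (2 * c)
    obtain ⟨f⟩ : Nonempty (Fin m × Fin (2 * c) ↪ Fin n) :=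
      Function.Embedding.nonempty_of_card_le (by simpa using hmn)
    set 𝓕 : R → Finset (Fin m → Fin (2 * c)) := fun q =>
      univ.filter fun σ => (D q).Accepts (code (touch (pick f σ))) with h𝓕
    set B : ℝ := (2 : ℝ) ^ (-E) * ((2 * c : ℕ) : ℝ) ^ m with hB
    have hB0 : 0 < B := by positivity
    obtain ⟨q, hq⟩ : ∃ q, B ≤ ((𝓕 q).card : ℝ) := by
      by_contra hcon
      push Not at hcon
      have h2 : ∑ q, p q * ((𝓕 q).card : ℝ) = ∑ σ : Fin m → Fin (2 * c),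
          ∑ q, Set.indicator {q | (D q).Accepts (code (touch (pick f σ)))} p q := by
        rw [sum_comm]
        refine sum_congr rfl fun q _ => ?_
        rw [h𝓕]
        simp only [Set.indicator_apply, Set.mem_ofPred_eq]
        rw [← sum_filter, sum_const, nsmul_eq_mul, mul_comm]
      have h3 : B ≤ ∑ q, p q * ((𝓕 q).card : ℝ) := by
        rw [h2]
        have h4 : ∀ σ ∈ (univ : Finset (Fin m → Fin (2 * c))), (2 : ℝ) ^ (-E) ≤
            ∑ q, Set.indicator {q | (D q).Accepts (code (touch (pick f σ)))} p q := fun σ _ =>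
          hcomp (touch (pick f σ)) ((touch_vc f σ).trans_eq hm)
        have h5 := card_nsmul_le_sum (univ : Finset (Fin m → Fin (2 * c))) _ _ h4
        refine le_trans (le_of_eq ?_) h5
        rw [card_univ, Fintype.card_fun, Fintype.card_fin, Fintype.card_fin, nsmul_eq_mul, hB]
        push_cast
        ring
      have h4 : ∑ q, p q * ((𝓕 q).card : ℝ) < ∑ q, p q * B := by
        have hex : ∃ q, 0 < p q := by
          by_contra hcon'
          push Not at hcon'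
          have : ∑ q, p q ≤ 0 := sum_nonpos fun q _ => hcon' q
          linarith
        obtain ⟨q₀, hq₀⟩ := hex
        refine sum_lt_sum (fun q _ => mul_le_mul_of_nonneg_left (hcon q).le (hp q))
          ⟨q₀, mem_univ _, mul_lt_mul_of_pos_left (hcon q₀) hq₀⟩
      rw [← sum_mul, hp1, one_mul] at h4
      linarith
    refine ⟨q, ?_⟩
    by_contra hcon
    push Not at hcon
    have hleaf : (D q).LeafSize t := fun v S f h => (hl q v S f h).trans hlt'
    have hne : (𝓕 q).Nonempty := by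
      rw [← card_pos]
      have : (0 : ℝ) < ((𝓕 q).card : ℝ) := hB0.trans_le hq
      exact_mod_cast this
    obtain ⟨k, hk1, hk2⟩ := ma n m c r t f (ι q) (D q) (hD q) hleaf (𝓕 q) hne
      (fun σ hσ => (mem_filter.1 hσ).2)
      (fun G hacc => (hsound q G hacc).trans_eq (by rw [hm])) hc hr htr har
    -- bound for `k`
    have hk3 : (k : ℝ) ≤ 16385 * (c : ℝ) ^ 2 := by
      have h1 : n * (n + 1) / 2 ≤ n ^ 2 := by
        apply Nat.div_le_of_le_mul
        nlinarith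
      have h2 : k * (t + 1) ≤ n ^ 2 + (t + 1) := hk1.trans (by omega)
      have h3 : (k : ℝ) * (t + 1) ≤ (n : ℝ) ^ 2 + (t + 1) := by exact_mod_cast h2
      have ht0 : (0 : ℝ) < (t : ℝ) + 1 := by positivity
      have h4 : (n : ℝ) ^ 2 ≤ ((t : ℝ) + 1) * (16384 * (c : ℝ) ^ 2) := by
        rwa [div_le_iff₀ (by positivity)] at hnt
      have h5 : (k : ℝ) * (t + 1) ≤ (16384 * (c : ℝ) ^ 2 + 1) * (t + 1) := by linarith
      have h6 : (k : ℝ) ≤ 16384 * (c : ℝ) ^ 2 + 1 := le_of_mul_le_mul_right h5 ht0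
      nlinarith
    have hb : ((𝓕 q).card : ℝ) ^ k * 2 ^ (2 * c * m) ≤
        (4 * (Fintype.card (ι q) : ℝ)) ^ (2 * k) * (((2 * c : ℕ) : ℝ) ^ m) ^ k := by
      exact_mod_cast hk2
    have h1 : B ^ k * 2 ^ (2 * c * m) ≤ ((𝓕 q).card : ℝ) ^ k * 2 ^ (2 * c * m) :=
      mul_le_mul_of_nonneg_right (pow_le_pow_left₀ hB0.le hq _) (by positivity)
    have h2 : (4 * (Fintype.card (ι q) : ℝ)) ^ (2 * k) ≤ ((2 : ℝ) ^ (E + 2)) ^ (2 * k) := by
      refine pow_le_pow_left₀ (by positivity) ?_ _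
      rw [Real.rpow_add (by norm_num), mul_comm]
      have : (2 : ℝ) ^ (2 : ℝ) = 4 := by norm_num
      rw [this]
      apply mul_le_mul_of_nonneg_right _ (by norm_num)
      linarith
    have hC0 : (0 : ℝ) < (((2 * c : ℕ) : ℝ) ^ m) ^ k := by positivity
    have h3 : ((2 : ℝ) ^ (-E)) ^ k * 2 ^ (2 * c * m) ≤ ((2 : ℝ) ^ (E + 2)) ^ (2 * k) := by
      have e1 : B ^ k * 2 ^ (2 * c * m) =
          (((2 : ℝ) ^ (-E)) ^ k * 2 ^ (2 * c * m)) * (((2 * c : ℕ) : ℝ) ^ m) ^ k := by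
        rw [hB, mul_pow]
        ring
      have e2 := h1.trans (hb.trans (mul_le_mul_of_nonneg_right h2 hC0.le))
      rw [e1] at e2
      exact le_of_mul_le_mul_right e2 hC0
    have h4 : (2 : ℝ) ^ (-E * k + 2 * c * m) ≤ (2 : ℝ) ^ ((E + 2) * (2 * k)) := by
      have e1 : ((2 : ℝ) ^ (-E)) ^ k * 2 ^ (2 * c * m) = (2 : ℝ) ^ (-E * k + 2 * c * m) := by
        rw [← Real.rpow_natCast, ← Real.rpow_mul (by norm_num), ← Real.rpow_natCast 2 (2 * c * m),
          ← Real.rpow_add (by norm_num)]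
        push_cast
        rfl
      have e2 : ((2 : ℝ) ^ (E + 2)) ^ (2 * k) = (2 : ℝ) ^ ((E + 2) * (2 * k)) := by
        rw [← Real.rpow_natCast, ← Real.rpow_mul (by norm_num)]
        push_cast
        rfl
      rw [← e1, ← e2]
      exact h3
    have h5 : -E * k + 2 * c * m ≤ (E + 2) * (2 * k) :=
      (Real.rpow_le_rpow_left_iff (by norm_num)).1 h4
    have h6 : (n : ℝ) / 2 ≤ k * (3 * E + 4) := by nlinarith
    have hE0 : 0 ≤ E := by positivity
    have h7 : (k : ℝ) * (3 * E + 4) ≤ 16385 * (c : ℝ) ^ 2 * (3 * E + 4) :=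
      mul_le_mul_of_nonneg_right hk3 (by positivity)
    have h8 : (c : ℝ) ^ 2 * E = 1 / 10 ^ 6 * n := by
      rw [hE]
      field_simp
    have h9 : 16385 * (c : ℝ) ^ 2 * (3 * E + 4) = 16385 * (3 * ((c : ℝ) ^ 2 * E) + 4 * (c : ℝ) ^ 2) := by
      ring
    rw [h9, h8] at h7
    have h10 : (0 : ℝ) < n := by
      have : (0 : ℝ) < (c : ℝ) ^ 2 * 10 ^ 6 := by positivity
      linarith
    linarith

end Pool.Agent.Helper62K9.SQ
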