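import Pool.Agent.Helper62K9.SQ.Sk
import Pool.Agent.Helper62K9.SQ.Lo

set_option autoImplicit false

namespace Pool.Agent.Helper62K9.SQ

open Finset Pool.Agent.Helper62K9.DV

theorem vc_le_n {n : ℕ} (G : SimpleGraph (Fin n)) : vc G ≤ n := by
  refine (vc_le G univ (by simp)).trans ?_
  simp

/-- the circuit that is always true -/
def one (X : Type) : Circuit X Unit where
  gate := fun _ => .leaf ∅ fun _ => True
  out := ()
  rank := fun _ => 0
  disj_lt := by intro v A h; exact absurd h (by simp)
  conj_lt := by intro v a b h; exact absurd h (by simp)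
  local_leaf := by
    intro v S f h x y _ _
    rw [Gate.leaf.injEq] at h
    rw [← h.2]
    trivial

theorem upperS (up : S_UP) (n c k : ℕ) (hc : 1 ≤ c) :
    ∃ (ι : Type) (_ : Fintype ι) (D : Circuit (Sym2 (Fin n)) ι),
      Fintype.card ι ≤ 4 * (n + 1) ^ 5 * ∑ j ∈ range (n / c ^ 2 + 2), n.choose j ∧
      D.Decomposable ∧ D.LeafSize n ∧
      (∀ G : SimpleGraph (Fin n), vc G ≤ k → D.Accepts (code G)) ∧
      ∀ G : SimpleGraph (Fin n), D.Accepts (code G) → vc G ≤ c * k := by
  have hsum : 1 ≤ ∑ j ∈ range (n / c ^ 2 + 2), n.choose j := by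
    calc 1 = n.choose 0 := by simp
      _ ≤ _ := single_le_sum (f := fun j => n.choose j) (fun _ _ => Nat.zero_le _)
          (mem_range.2 (Nat.succ_pos _))
  by_cases hk : n ≤ c * k
  · refine ⟨Unit, inferInstance, one _, ?_, ?_, ?_, ?_, ?_⟩
    · rw [Fintype.card_unit]
      have : 1 ≤ 4 * (n + 1) ^ 5 := by
        have : 0 < (n + 1) ^ 5 := by positivity
        omega
      calc 1 = 1 * 1 := rfl
        _ ≤ _ := Nat.mul_le_mul this hsum
    · intro v a b h
      exact absurd h (by simp [one])
    · intro v S f h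
      simp only [one, Gate.leaf.injEq] at h
      rw [← h.1]
      simp
    · intro G _
      exact .leaf () ∅ (fun _ => True) rfl trivial
    · intro G _
      exact (vc_le_n G).trans hk
  · push Not at hk
    obtain ⟨ι, hι, D, h1, h2, h3, h4, h5⟩ := up n (n / c ^ 2 + 1) (c * k) (Nat.succ_pos _)
    refine ⟨ι, hι, D, ?_, h2, h3, ?_, h4⟩
    · refine h1.trans (Nat.mul_le_mul_right _ ?_)
      calc 4 * (n + 1) ^ 4 * (c * k + 1) ≤ 4 * (n + 1) ^ 4 * (n + 1) :=
            Nat.mul_le_mul_left _ (by omega)
        _ = 4 * (n + 1) ^ 5 := by ring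
    · intro G hG
      refine h5 G ?_
      obtain ⟨L, hL⟩ : ∃ L, L = n / c ^ 2 + 1 := ⟨_, rfl⟩
      rw [← hL]
      have hL1 : 1 ≤ L := hL ▸ Nat.succ_pos _
      have h6 : n < c ^ 2 * L := by
        rw [hL]
        exact Nat.lt_mul_div_succ n (by positivity)
      have h7 : k < c * L := by
        have : c * k < c * (c * L) := by
          calc c * k < n := hk
            _ < c ^ 2 * L := h6
            _ = c * (c * L) := by ring
        exact lt_of_mul_lt_mul_left this (Nat.zero_le _)
      have h8 : (vc G + L - 1) / L ≤ c := by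
        rw [← Nat.lt_succ_iff, Nat.div_lt_iff_lt_mul (by omega)]
        have : (c + 1) * L = c * L + L := by ring
        show vc G + L - 1 < (c + 1) * L
        omega
      calc vc G * ((vc G + L - 1) / L) ≤ k * c := Nat.mul_le_mul hG h8
        _ = c * k := Nat.mul_comm _ _

end Pool.Agent.Helper62K9.SQ
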