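import Pool.Agent.Helper62K9.DV.Upper
import Pool.Agent.Helper62K9.DV.Asymp

set_option autoImplicit false

/-!
# Statements: decomposable circuits for vertex cover on all graphs with `n` vertices

The ratio `c` costs between `2 ^ (γ n / c ^ 2)` and `poly (n) * ∑ j ≤ ⌈n / c ^ 2⌉, C(n, j)` gates.
-/

namespace Pool.Agent.Helper62K9.SQ

open Finset Pool.Agent.Helper62K9.DV

/-- all pairs which touch `K` -/
def touch {V : Type} (K : Finset V) : SimpleGraph V where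
  Adj u v := u ≠ v ∧ (u ∈ K ∨ v ∈ K)
  symm := ⟨fun _ _ h => ⟨h.1.symm, h.2.symm⟩⟩
  loopless := ⟨fun _ h => h.1 rfl⟩

/-- the set of all `f (i, σ i)` -/
def pick {n m b : ℕ} (f : Fin m × Fin b ↪ Fin n) (σ : Fin m → Fin b) : Finset (Fin n) :=
  univ.image fun i => f (i, σ i)

/-- [SK] skeleton: from one accepted input with popular chunks -/
def S_SK : Prop :=
  ∀ (X ι T : Type) [Fintype X] [DecidableEq X] [Fintype ι] (t : ℕ) (x : T → X → Bool)
    (D : Circuit X ι), D.Decomposable → D.LeafSize t → ∀ 𝓕 : Finset T, 𝓕.Nonempty →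
    (∀ σ ∈ 𝓕, D.Accepts (x σ)) →
    ∃ (k : ℕ) (F : Fin k → Finset T) (P : Fin k → T → Finset X),
      k * (t + 1) ≤ Fintype.card X + (t + 1) ∧
      (∀ i, ∀ σ ∈ F i, (P i σ).card ≤ 2 * t) ∧
      (∀ i j, i ≠ j → ∀ σ ∈ F i, ∀ τ ∈ F j, Disjoint (P i σ) (P j τ)) ∧
      (∀ (y : X → Bool) (c : Fin k → T), (∀ i, c i ∈ F i) →
        (∀ i, ∀ e ∈ P i (c i), y e = x (c i) e) → D.Accepts y) ∧
      𝓕.card ^ k ≤ (4 * Fintype.card ι) ^ (2 * k) * ∏ i, (F i).card

/-- [CO] counting; model: `DV/Count.lean`, theorem `core` (there `b = 2`, all `F i` equal). The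
new inequality is `#{σ | ∀ v ∈ A, v.2 ≠ σ v.1} * b ^ #A ≤ b ^ m * (b - 1) ^ #A` (Bernoulli in every
column) together with `2 * (b - 1) ^ b ≤ b ^ b`. -/
def S_CO : Prop :=
  ∀ (m b a r t k : ℕ) (F : Fin k → Finset (Fin m → Fin b))
    (P : Fin k → (Fin m → Fin b) → Finset (Sym2 (Fin m × Fin b))),
    0 < b → 0 < r → 2 * t ≤ r ^ 2 → 2 * (m * b) * b * r ≤ a * (a - 1) →
    (∀ i, ∀ σ ∈ F i, (P i σ).card ≤ t) →
    (∀ i j, i ≠ j → ∀ σ ∈ F i, ∀ τ ∈ F j, Disjoint (P i σ) (P j τ)) →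
    (∀ c : Fin k → (Fin m → Fin b), (∀ i, c i ∈ F i) →
      ∃ I : Finset (Fin m × Fin b), a ≤ I.card ∧ ∀ u ∈ I, ∀ v ∈ I, u ≠ v →
        ∃ i, s(u, v) ∈ P i (c i) ∧ u.2 ≠ c i u.1 ∧ v.2 ≠ c i v.1) →
    (∏ i, (F i).card) * 2 ^ (m * b) ≤ (b ^ m) ^ k

/-- [MA] one circuit; model: `DV/Main.lean`, theorem `count_bound` (uses S_SK and S_CO). The mixed
graph: `u, v` adjacent iff `u ≠ v` and there is no `i` with `s(u, v) ∈ P i (c i)` and `u, v` both
outside `pick f (c i)`. Its complement of a minimal cover, intersected with the range of `f`, has at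
least `2 c m - c m` elements; pull it and the pieces back by `f` (`Sym2.map f` is injective). -/
def S_MA : Prop :=
  ∀ (n m c r t : ℕ) (f : Fin m × Fin (2 * c) ↪ Fin n) (ι : Type) [Fintype ι]
    (D : Circuit (Sym2 (Fin n)) ι), D.Decomposable → D.LeafSize t →
    ∀ 𝓕 : Finset (Fin m → Fin (2 * c)), 𝓕.Nonempty →
    (∀ σ ∈ 𝓕, D.Accepts (code (touch (pick f σ)))) →
    (∀ G : SimpleGraph (Fin n), D.Accepts (code G) → vc G ≤ c * m) →
    1 ≤ c → 0 < r → 4 * t ≤ r ^ 2 → 8 * c * r + 1 ≤ c * m →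
    ∃ k : ℕ, k * (t + 1) ≤ n * (n + 1) / 2 + (t + 1) ∧
      𝓕.card ^ k * 2 ^ (2 * c * m) ≤ (4 * Fintype.card ι) ^ (2 * k) * ((2 * c) ^ m) ^ k

/-- [LO] the lower bound (from S_MA); model: `DV/Asymp.lean` -/
def S_LO : Prop :=
  ∃ γ : ℝ, 0 < γ ∧
    ∀ (n c l : ℕ) (R : Type) [Fintype R] (p : R → ℝ) (ι : R → Type) [∀ r, Fintype (ι r)]
      (D : ∀ r, Circuit (Sym2 (Fin n)) (ι r)),
      1 ≤ c → (∀ r, 0 ≤ p r) → ∑ r, p r = 1 →
      (∀ r, (D r).Decomposable) → (∀ r, (D r).LeafSize l) →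
      (l : ℝ) ≤ 1 + γ * (n : ℝ) ^ 2 / (c : ℝ) ^ 2 →
      (∀ r, ∀ G : SimpleGraph (Fin n), (D r).Accepts (code G) → vc G ≤ c * (n / (2 * c))) →
      (∀ G : SimpleGraph (Fin n), vc G ≤ n / (2 * c) →
        (2 : ℝ) ^ (-(γ * n / (c : ℝ) ^ 2)) ≤
          ∑ r, Set.indicator {r | (D r).Accepts (code G)} p r) →
      ∃ r, (2 : ℝ) ^ (γ * n / (c : ℝ) ^ 2) ≤ Fintype.card (ι r) + 1

/-- [UP] the circuit. Vertices in the order of `Fin n`; blocks `[a, b)` of consecutive vertices,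
chosen one after the other; for a block a set `K` of at most `L` vertices is guessed; then for
`w = a, a + 1, ..., n - 1`: either one unit is paid for `w`, or (only if `w ∉ K`) it is checked by one
leaf that `w` has no edge to the `u ∈ [a, min b w) \ K`. Then the next block starts at `b`. All is
accepted if at most `B` units have been paid. Gates: `S (a, B')` (or-gates, `true` for `a = n`),
`C (a, b, K, w, B')` (or-gate of the two possibilities, and-gate of the leaf and of the next gate, and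
the leaf); `C (a, b, K, n, B') = S (b, B')`. Soundness: the paid vertices are a cover. Completeness:
for a cover `T` of size `k` blocks with `L` members of `T` each, `K = T ∩ [a, b)`, pay for `w ∈ T`;
there are at most `⌈k / L⌉` blocks with a member of `T`, extend the last of them to `n`. -/
def S_UP : Prop :=
  ∀ n L B : ℕ, 1 ≤ L → ∃ (ι : Type) (_ : Fintype ι) (D : Circuit (Sym2 (Fin n)) ι),
    Fintype.card ι ≤ 4 * (n + 1) ^ 4 * (B + 1) * ∑ j ∈ range (L + 1), n.choose j ∧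
    D.Decomposable ∧ D.LeafSize n ∧
    (∀ G : SimpleGraph (Fin n), D.Accepts (code G) → vc G ≤ B) ∧
    ∀ G : SimpleGraph (Fin n), vc G * ((vc G + L - 1) / L) ≤ B → D.Accepts (code G)

end Pool.Agent.Helper62K9.SQ
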